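import Pool.Agent.Y119.PLM.Gal
import Pool.Agent.Y985.OR.Stm

/-!
The criterion of density, for symmetric and skew forms.
-/

set_option autoImplicit false
set_option linter.unusedSectionVars false

open Filter Topology Matrix Polynomial

namespace Pool.Agent.Y977.ORD

open Pool.Agent.Y119.HY Pool.Agent.Y119.PL Pool.Agent.Y890.MV Pool.Agent.Y119.PLM
open Pool.Agent.Y985.OR (bl refl pm ZCl IsO S_ALL)

section

variable {X κ : Type} [Fintype X] {n : κ → ℕ}

/-- the relations `(Aᵀ J'(x) A - J) a b` -/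
noncomputable def isoRel (j : κ) (J : Matrix (Fin (n j)) (Fin (n j)) ℂ)
    (J' : Matrix (Fin (n j)) (Fin (n j)) (MvPolynomial X ℂ)) (a b : Fin (n j)) :
    MvPolynomial (Ix n) (MvPolynomial X ℂ) :=
  ∑ c, ∑ d, MvPolynomial.X ⟨j, c, a⟩ * MvPolynomial.C (J' c d) * MvPolynomial.X ⟨j, d, b⟩ -
    MvPolynomial.C (MvPolynomial.C (J a b))

lemma isoRel_eval (j : κ) (J : Matrix (Fin (n j)) (Fin (n j)) ℂ)
    (J' : Matrix (Fin (n j)) (Fin (n j)) (MvPolynomial X ℂ)) (a b : Fin (n j)) (x : X → ℂ)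
    (A : MT n) :
    vt (isoRel j J J' a b) x A =
      ((A j).transpose * J'.map (MvPolynomial.eval x) * A j) a b - J a b := by
  unfold vt isoRel
  rw [sub_eq_add_neg, MvPolynomial.eval₂_add, MvPolynomial.eval₂_neg, MvPolynomial.eval₂_sum,
    ← sub_eq_add_neg]
  simp only [MvPolynomial.eval₂_sum, MvPolynomial.eval₂_mul, MvPolynomial.eval₂_X,
    MvPolynomial.eval₂_C, MvPolynomial.eval_C]
  congr 1
  rw [Matrix.mul_apply]
  simp only [Matrix.mul_apply, Matrix.transpose_apply, Matrix.map_apply, Finset.sum_mul]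
  rw [Finset.sum_comm]

theorem mem_iso {U : Set (X → ℂ)} {Y : (X → ℂ) → MT n} (hne : U.Nonempty) {J : MT n}
    {J' : (j : κ) → Matrix (Fin (n j)) (Fin (n j)) (MvPolynomial X ℂ)}
    (hrel : ∀ x ∈ U, ∀ j, (Y x j).transpose * (J' j).map (MvPolynomial.eval x) * Y x j = J j)
    {g : MT n} (hg : g ∈ GalT U Y) (j : κ) : (g j).transpose * J j * g j = J j := by
  obtain ⟨x, hx⟩ := hne
  have h1 : ((Y x * g) j).transpose * (J' j).map (MvPolynomial.eval x) * (Y x * g) j = J j := by
    ext a b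
    have h2 := hg (isoRel j (J j) (J' j) a b) (fun y hy => by
      rw [isoRel_eval, hrel y hy j, sub_self]) x hx
    rw [isoRel_eval] at h2
    exact sub_eq_zero.1 h2
  rw [Pi.mul_apply] at h1
  calc (g j).transpose * J j * g j = (g j).transpose * ((Y x j).transpose *
        (J' j).map (MvPolynomial.eval x) * Y x j) * g j := by rw [hrel x hx j]
    _ = (Y x j * g j).transpose * (J' j).map (MvPolynomial.eval x) * (Y x j * g j) := by
      rw [transpose_mul]
      simp only [Matrix.mul_assoc]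
    _ = J j := h1

variable [DecidableEq κ]

/-- restriction of a polynomial to one factor -/
lemma exists_restrict (p : MvPolynomial (Ix n) ℂ) (j : κ) :
    ∃ q : MvPolynomial (Fin (n j) × Fin (n j)) ℂ, ∀ A : Matrix (Fin (n j)) (Fin (n j)) ℂ,
      pm q A = pe p (Pi.mulSingle j A) := by
  refine ⟨MvPolynomial.eval₂ MvPolynomial.C (fun i : Ix n =>
    if h : i.1 = j then MvPolynomial.X (h ▸ i.2)
    else MvPolynomial.C ((1 : Matrix (Fin (n i.1)) (Fin (n i.1)) ℂ) i.2.1 i.2.2)) p, fun A => ?_⟩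
  unfold pm pe
  rw [MvPolynomial.hom_eval₂, ← MvPolynomial.eval₂_id]
  congr 1
  · ext
    simp
  · funext i
    obtain ⟨k, a, b⟩ := i
    by_cases h : k = j
    · subst h
      simp
    · simp only [dif_neg h, MvPolynomial.eval_C]
      rw [Pi.mulSingle_eq_of_ne h]

theorem ZM_zcl {U : Set (X → ℂ)} {Y : (X → ℂ) → MT n} (hU : IsPreconnected U) (hUo : IsOpen U)
    (hne : U.Nonempty) (hY : ∀ j a b, AnalyticOnNhd ℂ (fun x => Y x j a b) U) (j : κ) :
    ZCl ((ZM hU hUo hne hY).comap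
      (MonoidHom.mulSingle (fun j => Matrix (Fin (n j)) (Fin (n j)) ℂ) j)) := by
  intro g hg p hp
  obtain ⟨q, hq⟩ := exists_restrict p j
  have h1 := hg q fun h hh => by
    rw [hq]
    exact hh p hp
  rw [hq] at h1
  exact h1

/-- **The criterion of density**, symmetric and skew forms. -/
theorem dense_core [Fintype κ] (hALL : S_ALL) {U : Set (X → ℂ)} {Y : (X → ℂ) → MT n}
    (hU : IsPreconnected U) (hUo : IsOpen U) (hne : U.Nonempty)
    (hY : ∀ j a b, AnalyticOnNhd ℂ (fun x => Y x j a b) U) {J : MT n}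
    {J' : (j : κ) → Matrix (Fin (n j)) (Fin (n j)) (MvPolynomial X ℂ)}
    (hdet : ∀ j, (J j).det ≠ 0)
    (hrel : ∀ x ∈ U, ∀ j, (Y x j).transpose * (J' j).map (MvPolynomial.eval x) * Y x j = J j)
    (hB : ∀ j, ((J j).transpose = J j ∧
      (∀ W : Submodule ℂ (Fin (n j) → ℂ), (∀ v, bl (J j) v v ≠ 0 →
        IsMon U Y (Pi.mulSingle j (refl (J j) v)) → ∀ x ∈ W, refl (J j) v *ᵥ x ∈ W) →
        W = ⊥ ∨ W = ⊤) ∧
      ∃ u v, bl (J j) u u ≠ 0 ∧ bl (J j) v v ≠ 0 ∧ IsMon U Y (Pi.mulSingle j (refl (J j) u)) ∧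
        IsMon U Y (Pi.mulSingle j (refl (J j) v)) ∧
        ∀ m : ℕ, 0 < m → (refl (J j) u * refl (J j) v) ^ m ≠ 1) ∨
      ((J j).transpose = -J j ∧ Big U Y j)) : DenseMon U Y J := by
  have hsp : ∀ j h, IsMon U Y (Pi.mulSingle j h) → h.transpose * J j * h = J j := by
    intro j h hh
    have h1 := mem_iso hne hrel (mon_mem hU hY hh) j
    rwa [Pi.mulSingle_eq_same] at h1
  have h0 : ∀ j h, h.transpose * J j * h = J j →
      (Pi.mulSingle j h : MT n) ∈ ZM hU hUo hne hY := by
    intro j h hh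
    set S := (ZM hU hUo hne hY).comap
      (MonoidHom.mulSingle (fun j => Matrix (Fin (n j)) (Fin (n j)) ℂ) j) with hS
    have hmem : ∀ h, IsMon U Y (Pi.mulSingle j h) → h ∈ S := fun h hh p hp => hp _ hh
    rcases hB j with ⟨hJs, hirr, u, v, hu, hv, hum, hvm, hinf⟩ | ⟨hJk, hirr, g0, hg0, hr⟩
    · exact hALL (n j) (J j) hJs (hdet j) S (ZM_zcl hU hUo hne hY j)
        (fun W hW => hirr W fun v hv hvm => hW v hv (hmem _ hvm))
        ⟨u, v, hu, hv, hmem _ hum, hmem _ hvm, hinf⟩ h hh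
    · have hcl : NClosed S := ZM_nclosed hU hUo hne hY j
      obtain ⟨u, s, hu0, hs, he⟩ := exists_tv hJk (hdet j) (hsp j g0 hg0) hr
      have huS : ∀ c, tv (J j) u c ∈ S :=
        tv_mem hJk hcl hs (by rw [← he]; exact hmem g0 hg0)
      exact sp_all3 (ι := {h : Matrix (Fin (n j)) (Fin (n j)) ℂ //
          IsMon U Y (Pi.mulSingle j h) ∧ (h - 1) ^ n j = 0})
        (g := fun i => i.1) hJk (hdet j) (fun i => i.2.2) (fun i => hsp j _ i.2.1) hu0 S
        (fun i => hmem _ i.2.1) huS hcl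
        (fun W hW => hirr W fun h h1 h2 => hW ⟨h, h1, h2⟩) h hh
  intro p hp g hg
  have h1 : ∀ s : Finset κ, (fun k => if k ∈ s then g k else 1 : MT n) ∈ ZM hU hUo hne hY := by
    intro s
    induction s using Finset.induction_on with
    | empty =>
      have : (fun k => if k ∈ (∅ : Finset κ) then g k else 1 : MT n) = 1 := by
        funext k
        simp
      rw [this]
      exact one_mem _
    | insert j s hj ih =>
      have : (fun k => if k ∈ insert j s then g k else 1 : MT n) =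
          (fun k => if k ∈ s then g k else 1 : MT n) * Pi.mulSingle j (g j) := by
        funext k
        rw [Pi.mul_apply]
        by_cases hk : k = j
        · subst hk
          rw [Pi.mulSingle_eq_same, if_pos (Finset.mem_insert_self _ _), if_neg hj, one_mul]
        · rw [Pi.mulSingle_eq_of_ne hk, mul_one]
          simp [hk]
      rw [this]
      exact mul_mem ih (h0 j (g j) (hg j))
  have h2 := h1 Finset.univ
  simp only [Finset.mem_univ, if_true] at h2
  exact h2 p hp

end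

end Pool.Agent.Y977.ORD
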